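import Pool.Agent.Helper65.HCS.Goals
import Pool.Agent.Helper94.HC.LSW

/-!
# Packet HCS-LSW: the windows form a family computed in linear space
-/

namespace Pool.Agent.Helper15.HCS

open Pool.Agent.Helper65.LinSpace Pool.Agent.Helper78.Mpc Pool.Agent.Helper28.Ram
open Pool.Agent.Helper65.HC Pool.Agent.Helper65.HCS Finset
open Pool.Agent.Helper59.Ram (LS_CR CM_le_CR pow_ll_le)
open Pool.Agent.Helper28.Long (pow_le_CR ZL ZL_le)
open Pool.Agent.Helper65.RT (qT CT ls_qT ls_CT ls_ll)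
open Pool.Agent.Helper94.HC (qT_pos qT_le two_pow_le_CT)

theorem sT_le_q (n T : ℕ) : Pool.Agent.Helper65.HCS.sT n T ≤ qT n - 1 :=
  (min_le_right _ _).trans (min_le_left _ _)

theorem ok_win (c₀ e x y T c : ℕ) : ((prm c₀ e x y T).win c).Ok := by
  refine ⟨Nat.succ_pos _, ?_, ?_, ?_, ?_⟩
  · show 0 < qT (Nat.log 2 x) / (Pool.Agent.Helper65.HCS.sT (Nat.log 2 x) T + 1)
    have h1 := qT_pos (Nat.log 2 x)
    have h2 := sT_le_q (Nat.log 2 x) T
    exact Nat.div_pos (by omega) (by omega)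
  · show 1 < 2 ^ (Pool.Agent.Helper65.HCS.sT (Nat.log 2 x) T + 1)
    exact Nat.one_lt_two_pow (by omega)
  · intro i j q v
    exact capN_lt _ _
  · intro i q
    exact capN_lt _ _

theorem sb_le (c₀ e x y T c : ℕ) :
    ((prm c₀ e x y T).win c).σ * ((prm c₀ e x y T).win c).B ≤ qT (Nat.log 2 x) :=
  Nat.mul_div_le (qT (Nat.log 2 x)) (Pool.Agent.Helper65.HCS.sT (Nat.log 2 x) T + 1)

theorem lsw (h : Pool.Agent.Helper65.HCS.LSP_stmt) : Pool.Agent.Helper65.HCS.LSW_stmt := by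
  intro c₀ α _ e x y T c he hx hy hT hc
  refine ⟨?_, fun z => ⟨sb_le _ _ _ _ _ _, le_rfl⟩⟩
  obtain ⟨-, -, -, -, -, hS, hB, hK, -, -⟩ := h c₀ he hx hy hT
  refine
    { σ := LS.add hS (LS.const 1)
      B := hB
      K := hK
      st := LS.const 1
      step := ?_
      out := ?_
      bd := ls_CT hx
      ok := fun z => ok_win _ _ _ _ _ _
      hC := fun z => two_pow_le_CT _ _ ((sb_le _ _ _ _ _ _).trans (qT_le _)) }
  · have he' : LS (fun b : α × ℕ × ℕ × ℕ × ℕ => e b.1) := LS.comp (g := e) he LS.fst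
    have hx' : LS (fun b : α × ℕ × ℕ × ℕ × ℕ => x b.1) := LS.comp (g := x) hx LS.fst
    have hy' : LS (fun b : α × ℕ × ℕ × ℕ × ℕ => y b.1) := LS.comp (g := y) hy LS.fst
    have hT' : LS (fun b : α × ℕ × ℕ × ℕ × ℕ => T b.1) := LS.comp (g := T) hT LS.fst
    have hc' : LS (fun b : α × ℕ × ℕ × ℕ × ℕ => c b.1) := LS.comp (g := c) hc LS.fst
    obtain ⟨h1, -, -, h2, h3, -⟩ := h c₀ he' hx' hy' hT'
    have i1 : LS (fun b : α × ℕ × ℕ × ℕ × ℕ => b.2.1) := by fun_prop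
    have i2 : LS (fun b : α × ℕ × ℕ × ℕ × ℕ => b.2.2.1) := by fun_prop
    have i3 : LS (fun b : α × ℕ × ℕ × ℕ × ℕ => b.2.2.2.1) := by fun_prop
    have i4 : LS (fun b : α × ℕ × ℕ × ℕ × ℕ => b.2.2.2.2) := by fun_prop
    have hct := (h2 hc').1
    have hi := LS.add hct i1
    have hj := LS.add hct i2
    exact h1 hi hj (LS.ifz i2 (h3 hc' hi) i3) i4
  · have he' : LS (fun b : α × ℕ × ℕ => e b.1) := LS.comp (g := e) he LS.fst
    have hx' : LS (fun b : α × ℕ × ℕ => x b.1) := LS.comp (g := x) hx LS.fst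
    have hy' : LS (fun b : α × ℕ × ℕ => y b.1) := LS.comp (g := y) hy LS.fst
    have hT' : LS (fun b : α × ℕ × ℕ => T b.1) := LS.comp (g := T) hT LS.fst
    have hc' : LS (fun b : α × ℕ × ℕ => c b.1) := LS.comp (g := c) hc LS.fst
    obtain ⟨-, h1, -, h2, h3, -⟩ := h c₀ he' hx' hy' hT'
    have i1 : LS (fun b : α × ℕ × ℕ => b.2.1) := by fun_prop
    have i2 : LS (fun b : α × ℕ × ℕ => b.2.2) := by fun_prop
    have hct := (h2 hc').1
    have hi := LS.add hct i1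
    exact h1 hi (LS.ifz i1 (h3 hc' hct) i2)

end Pool.Agent.Helper15.HCS
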